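import Mathlib
import Pool.Agent.H143Z.KE.Up

set_option autoImplicit false

namespace Pool.Agent.Results.MP_164ed8_gt.BallNotUnique

open Pool.Agent.Helper206.Bottom

/-- On the unit ball of complex n-space, `n ≥ 1`, there are a complete Kähler-Einstein metric
`gKE` of Ricci curvature `-1` with positive bottom of the spectrum and a different complete
Kähler metric `g` with Ricci curvature at least `-1` whose bottom of the spectrum is at least
that of `gKE`. -/
theorem result (n : ℕ) (hn : 1 ≤ n) :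
    ∃ gKE : Cn n → Cn n → Cn n → ℝ,
      IsKahlerMetric (unitBall n) gKE ∧ IsCompleteMetric (unitBall n) gKE ∧
      (∃ Γ, IsLeviCivita (unitBall n) gKE Γ ∧
        ∀ z ∈ unitBall n, ∀ v, ricci Γ z v v = -gKE z v v) ∧
      0 < bottomSpectrum (unitBall n) gKE ∧
      ∃ g : Cn n → Cn n → Cn n → ℝ,
        IsKahlerMetric (unitBall n) g ∧ IsCompleteMetric (unitBall n) g ∧
        RicciBoundedBelow (unitBall n) g (-1) ∧
        (∃ z ∈ unitBall n, ∃ v, g z v v ≠ gKE z v v) ∧
        bottomSpectrum (unitBall n) gKE ≤ bottomSpectrum (unitBall n) g := by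
  obtain ⟨m, rfl⟩ : ∃ m, n = m + 1 := ⟨n - 1, by omega⟩
  refine ⟨H143Z.KE.gc (m + 1) 0, H143Z.KE.gc_kahler le_rfl, H143Z.KE.gc_complete le_rfl,
    ⟨_, H143Z.KE.gc_levi le_rfl, fun z hz v => H143Z.KE.g0_einstein hz v⟩,
    lt_of_lt_of_le (by positivity) (H143Z.KE.bottom_ge le_rfl zero_le_one),
    H143Z.KE.gc (m + 1) 1, H143Z.KE.gc_kahler zero_le_one, H143Z.KE.gc_complete zero_le_one,
    H143Z.KE.gc_ricci_ge hn zero_le_one, ⟨0, by show esq _ < 1; simp, fun _ => 1, ?_⟩,
    H143Z.KE.bottom_le.trans (H143Z.KE.bottom_ge zero_le_one le_rfl)⟩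
  rw [H143Z.KE.gc_self, H143Z.KE.gc_self]
  have h : (0 : ℝ) < esq (fun _ : Fin (m + 1) => (1 : ℂ)) := by
    rw [sq_pos]
    intro h
    simpa using congrFun h 0
  simp only [H143Z.KE.Pc, sq_zero', ip_zero_right, map_zero, mul_zero, add_zero]
  intro h1
  have h2 := mul_right_cancel₀ h.ne' h1
  linarith

end Pool.Agent.Results.MP_164ed8_gt.BallNotUnique
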